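import Pool.Agent.W102.GI.Defs

set_option autoImplicit false

/-! GI-WC: the number of centrally symmetric symmetric matrices. -/

namespace Pool.Agent.W283.GI

open Finset

/-- sum over the signed indices `-r..r` -/
def T (f : ℤ → ℕ) (r : ℕ) : ℕ := ∑ i ∈ range (2 * r + 1), f ((i : ℤ) - (r : ℤ))

lemma T_zero (f : ℤ → ℕ) : T f 0 = f 0 := by simp [T]

lemma T_succ (f : ℤ → ℕ) (r : ℕ) :
    T f (r + 1) = f (-((r : ℤ) + 1)) + T f r + f ((r : ℤ) + 1) := by
  unfold T
  have h : 2 * (r + 1) + 1 = (2 * r + 1) + 1 + 1 := by ring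
  rw [h, sum_range_succ, sum_range_succ']
  have h1 : ∀ i : ℕ, ((i + 1 : ℕ) : ℤ) - ((r + 1 : ℕ) : ℤ) = (i : ℤ) - (r : ℤ) := by
    intro i; push_cast; ring
  have h2 : (((2 * r + 1 : ℕ)) : ℤ) - (r : ℤ) = (r : ℤ) + 1 := by
    push_cast; ring
  have h3 : ((0 : ℕ) : ℤ) - ((r + 1 : ℕ) : ℤ) = -((r : ℤ) + 1) := by
    push_cast; ring
  simp only [h1, h3]
  rw [h2]
  ring

lemma T_congr {f g : ℤ → ℕ} {r : ℕ} (h : ∀ x : ℤ, -(r : ℤ) ≤ x → x ≤ r → f x = g x) :
    T f r = T g r := by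
  unfold T
  apply sum_congr rfl
  intro i hi
  rw [mem_range] at hi
  apply h <;> omega

lemma T_add (f g : ℤ → ℕ) (r : ℕ) : T (fun x => f x + g x) r = T f r + T g r := by
  unfold T
  exact sum_add_distrib

lemma T_neg (f : ℤ → ℕ) (r : ℕ) : T (fun x => f (-x)) r = T f r := by
  induction r with
  | zero => simp [T_zero]
  | succ r ih =>
    rw [T_succ, T_succ, ih]
    simp only [neg_neg]
    ring

/-- the sum of a symmetric and centrally symmetric matrix -/
lemma sum_all (M : ℤ → ℤ → ℕ) (h1 : ∀ x y, M x y = M y x) (h2 : ∀ x y, M (-x) (-y) = M x y)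
    (r : ℕ) :
    T (fun x => T (fun y => M x y) r) r =
      M 0 0 + 2 * ∑ k ∈ range r, (M ((k : ℤ) + 1) ((k : ℤ) + 1) + M ((k : ℤ) + 1) (-((k : ℤ) + 1)))
        + 4 * ∑ k ∈ range r, T (fun x => M x ((k : ℤ) + 1)) k := by
  induction r with
  | zero => simp [T_zero]
  | succ r ih =>
    rw [sum_range_succ, sum_range_succ]
    have e1 : T (fun x => T (fun y => M x y) (r + 1)) (r + 1)
        = T (fun x => M x (-((r : ℤ) + 1)) + T (fun y => M x y) r + M x ((r : ℤ) + 1)) (r + 1) := by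
      apply T_congr
      intro x _ _
      rw [T_succ]
    rw [e1, T_succ]
    rw [T_add (fun x => M x (-((r : ℤ) + 1)) + T (fun y => M x y) r) (fun x => M x ((r : ℤ) + 1)),
      T_add (fun x => M x (-((r : ℤ) + 1))) (fun x => T (fun y => M x y) r), ih]
    have e2 : T (fun x => M x (-((r : ℤ) + 1))) r = T (fun x => M x ((r : ℤ) + 1)) r := by
      rw [← T_neg]
      apply T_congr
      intro x _ _
      exact h2 x _
    have e3 : T (fun y => M (-((r : ℤ) + 1)) y) r = T (fun x => M x ((r : ℤ) + 1)) r := by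
      rw [← e2]
      apply T_congr
      intro x _ _
      exact h1 _ _
    have e4 : T (fun y => M ((r : ℤ) + 1) y) r = T (fun x => M x ((r : ℤ) + 1)) r := by
      apply T_congr
      intro x _ _
      exact h1 _ _
    rw [e2, e3, e4, h2, h1 (-((r : ℤ) + 1)) ((r : ℤ) + 1)]
    ring

lemma T_sum (f : ℤ → ℕ) (r : ℕ) :
    T f r = f 0 + ∑ k ∈ range r, (f ((k : ℤ) + 1) + f (-((k : ℤ) + 1))) := by
  induction r with
  | zero => simp [T_zero]
  | succ r ih =>
    rw [T_succ, ih, sum_range_succ]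
    ring

lemma fin_sum (f : ℤ → ℕ) (r : ℕ) :
    ∑ u : Fin (2 * r + 1), f (((u : ℕ) : ℤ) - (r : ℤ)) = T f r := by
  unfold T
  exact Fin.sum_univ_eq_sum_range (fun i : ℕ => f ((i : ℤ) - (r : ℤ))) (2 * r + 1)

/-! ### The finite matrices and vectors as functions on signed indices -/

/-- index of a signed number -/
def ix (r : ℕ) (x : ℤ) : Fin (2 * r + 1) :=
  ⟨min (x + r).toNat (2 * r), by omega⟩

lemma ix_val (r : ℕ) (x : ℤ) (h1 : -(r : ℤ) ≤ x) (h2 : x ≤ r) : (((ix r x : Fin (2 * r + 1)) : ℕ) : ℤ) = x + r := by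
  simp only [ix]
  omega

lemma ix_sub (r : ℕ) (u : Fin (2 * r + 1)) : ix r (((u : ℕ) : ℤ) - (r : ℤ)) = u := by
  apply Fin.ext
  have := u.isLt
  simp only [ix]
  omega

lemma ix_rev (r : ℕ) (x : ℤ) : ix r (-x) = Fin.rev (ix r x) := by
  apply Fin.ext
  simp only [ix, Fin.val_rev]
  omega

abbrev Ix (r : ℕ) := Σ v : Fin r, Fin (2 * (v : ℕ) + 1)

/-- the weight-1 part -/
def A (M : ℤ → ℤ → ℕ) (x : ℤ) : ℕ := if x = 0 then M 0 0 / 2 else if 0 < x then M x x else M (-x) x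

/-- the matrix in signed coordinates -/
def MN {r : ℕ} (N : Fin (2 * r + 1) → Fin (2 * r + 1) → ℕ) (x y : ℤ) : ℕ := N (ix r x) (ix r y)

/-- the map -/
def Phi (r : ℕ) (N : Fin (2 * r + 1) → Fin (2 * r + 1) → ℕ) :
    (Fin (2 * r + 1) → ℕ) × (Ix r → ℕ) :=
  (fun u => A (MN N) (((u : ℕ) : ℤ) - (r : ℤ)),
    fun p => MN N (((p.2 : ℕ) : ℤ) - ((p.1 : ℕ) : ℤ)) (((p.1 : ℕ) : ℤ) + 1))

lemma sum_Phi1 (r : ℕ) (N : Fin (2 * r + 1) → Fin (2 * r + 1) → ℕ) :
    ∑ u, (Phi r N).1 u = MN N 0 0 / 2 + ∑ k ∈ range r,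
      (MN N ((k : ℤ) + 1) ((k : ℤ) + 1) + MN N ((k : ℤ) + 1) (-((k : ℤ) + 1))) := by
  have e : ∑ u, (Phi r N).1 u = T (A (MN N)) r := by
    rw [← fin_sum]; rfl
  rw [e, T_sum]
  congr 1
  apply sum_congr rfl
  intro k _
  have a1 : ((k : ℤ) + 1) ≠ 0 := by omega
  have a2 : 0 < ((k : ℤ) + 1) := by omega
  have a3 : -((k : ℤ) + 1) ≠ 0 := by omega
  have a4 : ¬ (0 < -((k : ℤ) + 1)) := by omega
  unfold A
  rw [if_neg a1, if_pos a2, if_neg a3, if_neg a4, neg_neg]

lemma sum_Phi2 (r : ℕ) (N : Fin (2 * r + 1) → Fin (2 * r + 1) → ℕ) :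
    ∑ p, (Phi r N).2 p = ∑ k ∈ range r, T (fun x => MN N x ((k : ℤ) + 1)) k := by
  rw [Fintype.sum_sigma]
  rw [← Fin.sum_univ_eq_sum_range (fun k : ℕ => T (fun x => MN N x ((k : ℤ) + 1)) k) r]
  apply sum_congr rfl
  intro v _
  rw [← fin_sum]
  rfl

lemma sum_MN (r : ℕ) (N : Fin (2 * r + 1) → Fin (2 * r + 1) → ℕ) :
    ∑ u, ∑ v, N u v = T (fun x => T (fun y => MN N x y) r) r := by
  rw [← fin_sum]
  apply sum_congr rfl
  intro u _
  rw [← fin_sum]
  apply sum_congr rfl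
  intro v _
  unfold MN
  rw [ix_sub, ix_sub]

lemma sum_N (r : ℕ) (N : Fin (2 * r + 1) → Fin (2 * r + 1) → ℕ)
    (h1 : ∀ u v, N u v = N v u) (h2 : ∀ u v : Fin (2 * r + 1), N (Fin.rev u) (Fin.rev v) = N u v) :
    ∑ u, ∑ v, N u v = MN N 0 0 + 2 * ∑ k ∈ range r,
      (MN N ((k : ℤ) + 1) ((k : ℤ) + 1) + MN N ((k : ℤ) + 1) (-((k : ℤ) + 1)))
      + 4 * ∑ p, (Phi r N).2 p := by
  rw [sum_MN, sum_all, sum_Phi2]
  · intro x y; exact h1 _ _
  · intro x y; unfold MN; rw [ix_rev, ix_rev]; exact h2 _ _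

lemma even_c (n r : ℕ) (N : Fin (2 * r + 1) → Fin (2 * r + 1) → ℕ)
    (h : Pool.Agent.W102.GI.IsW n r N) : 2 * (MN N 0 0 / 2) = MN N 0 0 := by
  obtain ⟨h1, h2, h3⟩ := h
  have := sum_N r N h1 h2
  omega

lemma weight (n r : ℕ) (N : Fin (2 * r + 1) → Fin (2 * r + 1) → ℕ)
    (h : Pool.Agent.W102.GI.IsW n r N) :
    ∑ u, (Phi r N).1 u + 2 * ∑ p, (Phi r N).2 p = n := by
  have hc := even_c n r N h
  obtain ⟨h1, h2, h3⟩ := h
  have := sum_N r N h1 h2
  rw [sum_Phi1]
  omega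

/-! ### the inverse -/

/-- signed version of `c` -/
def cx {r : ℕ} (c : Ix r → ℕ) (x y : ℤ) : ℕ :=
  if h : 0 < y ∧ y ≤ r ∧ -y < x ∧ x < y then
    c ⟨⟨(y - 1).toNat, by omega⟩, ⟨(x + (y - 1)).toNat, by simp only; omega⟩⟩ else 0

/-- the matrix in signed coordinates given by the data -/
def G {r : ℕ} (a : Fin (2 * r + 1) → ℕ) (c : Ix r → ℕ) (x y : ℤ) : ℕ :=
  if |x| < |y| then (if 0 < y then cx c x y else cx c (-x) (-y))
  else if |y| < |x| then (if 0 < x then cx c y x else cx c (-y) (-x))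
  else if x = 0 then 2 * a (ix r 0)
  else if x = y then a (ix r |x|) else a (ix r (-|x|))

lemma G_symm {r : ℕ} (a : Fin (2 * r + 1) → ℕ) (c : Ix r → ℕ) (x y : ℤ) : G a c x y = G a c y x := by
  unfold G
  rcases lt_trichotomy |x| |y| with h | h | h
  · rw [if_pos h, if_neg (not_lt.2 h.le), if_pos h]
  · rw [if_neg h.not_lt, if_neg h.not_gt, if_neg h.not_gt, if_neg h.not_lt]
    by_cases hx : x = 0
    · have hy : y = 0 := by rw [hx, abs_zero] at h; exact abs_eq_zero.1 h.symm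
      rw [hx, hy]
    · have hy : y ≠ 0 := by
        intro hy; rw [hy, abs_zero] at h; exact hx (abs_eq_zero.1 h)
      rw [if_neg hx, if_neg hy]
      by_cases hxy : x = y
      · rw [hxy]
      · rw [if_neg hxy, if_neg (Ne.symm hxy), h]
  · rw [if_neg (not_lt.2 h.le), if_pos h, if_pos h]

lemma G_neg {r : ℕ} (a : Fin (2 * r + 1) → ℕ) (c : Ix r → ℕ) (x y : ℤ) :
    G a c (-x) (-y) = G a c x y := by
  unfold G
  simp only [abs_neg, neg_neg, neg_eq_zero, neg_inj]
  rcases lt_trichotomy |x| |y| with h | h | h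
  · rw [if_pos h, if_pos h]
    by_cases hy : 0 < y
    · rw [if_neg (by omega), if_pos hy]
    · have : y ≠ 0 := by
        intro h0; rw [h0, abs_zero] at h; exact absurd (abs_nonneg x) (not_le.2 h)
      rw [if_pos (by omega), if_neg hy]
  · rw [if_neg h.not_lt, if_neg h.not_gt, if_neg h.not_lt, if_neg h.not_gt]
  · rw [if_neg (not_lt.2 h.le), if_pos h, if_neg (not_lt.2 h.le), if_pos h]
    by_cases hx : 0 < x
    · rw [if_neg (by omega), if_pos hx]
    · have : x ≠ 0 := by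
        intro h0; rw [h0, abs_zero] at h; exact absurd (abs_nonneg y) (not_le.2 h)
      rw [if_pos (by omega), if_neg hx]

/-- the inverse map -/
def Psi (r : ℕ) (p : (Fin (2 * r + 1) → ℕ) × (Ix r → ℕ)) (u v : Fin (2 * r + 1)) : ℕ :=
  G p.1 p.2 (((u : ℕ) : ℤ) - (r : ℤ)) (((v : ℕ) : ℤ) - (r : ℤ))

lemma MN_Psi (r : ℕ) (p : (Fin (2 * r + 1) → ℕ) × (Ix r → ℕ)) (x y : ℤ)
    (hx1 : -(r : ℤ) ≤ x) (hx2 : x ≤ r) (hy1 : -(r : ℤ) ≤ y) (hy2 : y ≤ r) :
    MN (Psi r p) x y = G p.1 p.2 x y := by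
  unfold MN Psi
  rw [ix_val r x hx1 hx2, ix_val r y hy1 hy2]
  congr 1 <;> ring

lemma Phi_Psi (r : ℕ) (p : (Fin (2 * r + 1) → ℕ) × (Ix r → ℕ)) : Phi r (Psi r p) = p := by
  apply Prod.ext
  · funext u
    have hu := u.isLt
    show A (MN (Psi r p)) (((u : ℕ) : ℤ) - (r : ℤ)) = p.1 u
    have key : ∀ x : ℤ, -(r : ℤ) ≤ x → x ≤ r → A (MN (Psi r p)) x = p.1 (ix r x) := by
      intro x h1 h2
      unfold A
      by_cases h0 : x = 0
      · rw [if_pos h0, MN_Psi r p 0 0 (by omega) (by omega) (by omega) (by omega), h0]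
        unfold G
        simp
      · rw [if_neg h0]
        by_cases hp : 0 < x
        · rw [if_pos hp, MN_Psi r p x x (by omega) (by omega) (by omega) (by omega)]
          unfold G
          rw [if_neg (lt_irrefl _), if_neg (lt_irrefl _), if_neg h0, if_pos rfl, abs_of_pos hp]
        · rw [if_neg hp, MN_Psi r p (-x) x (by omega) (by omega) (by omega) (by omega)]
          have hn : x < 0 := by omega
          unfold G
          rw [abs_neg, if_neg (lt_irrefl _), if_neg (lt_irrefl _), if_neg (by omega),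
            if_neg (by omega), abs_of_neg hn, neg_neg]
    rw [key _ (by omega) (by omega), ix_sub]
  · funext q
    obtain ⟨v, w⟩ := q
    have hv := v.isLt
    have hw := w.isLt
    show MN (Psi r p) (((w : ℕ) : ℤ) - ((v : ℕ) : ℤ)) (((v : ℕ) : ℤ) + 1) = p.2 ⟨v, w⟩
    rw [MN_Psi r p _ _ (by omega) (by omega) (by omega) (by omega)]
    unfold G
    have hlt : |(((w : ℕ) : ℤ) - ((v : ℕ) : ℤ))| < |(((v : ℕ) : ℤ) + 1)| := by
      rw [abs_of_pos (show (0 : ℤ) < ((v : ℕ) : ℤ) + 1 by omega), abs_lt]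
      constructor <;> omega
    rw [if_pos hlt, if_pos (by omega)]
    unfold cx
    rw [dif_pos (by refine ⟨?_, ?_, ?_, ?_⟩ <;> omega)]
    have e1 : ((((v : ℕ) : ℤ) + 1) - 1).toNat = (v : ℕ) := by omega
    refine congrArg p.2 ?_
    apply Sigma.ext
    · apply Fin.ext; exact e1
    · apply (Fin.heq_ext_iff (by simp only [e1])).2
      simp only
      omega

lemma Psi_isW (n r : ℕ) (p : (Fin (2 * r + 1) → ℕ) × (Ix r → ℕ))
    (hp : ∑ u, p.1 u + 2 * ∑ q, p.2 q = n) : Pool.Agent.W102.GI.IsW n r (Psi r p) := by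
  have h1 : ∀ u v, Psi r p u v = Psi r p v u := fun u v => G_symm _ _ _ _
  have h2 : ∀ u v : Fin (2 * r + 1), Psi r p (Fin.rev u) (Fin.rev v) = Psi r p u v := by
    intro u v
    unfold Psi
    have e : ∀ u : Fin (2 * r + 1), (((Fin.rev u : Fin (2 * r + 1)) : ℕ) : ℤ) - (r : ℤ)
        = -(((u : ℕ) : ℤ) - (r : ℤ)) := by
      intro u
      have := u.isLt
      rw [Fin.val_rev]
      omega
    rw [e, e, G_neg]
  refine ⟨h1, h2, ?_⟩
  have h3 := sum_N r (Psi r p) h1 h2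
  have h4 := sum_Phi1 r (Psi r p)
  rw [Phi_Psi] at h3 h4
  have h5 : MN (Psi r p) 0 0 = 2 * p.1 (ix r 0) := by
    rw [MN_Psi r p 0 0 (by omega) (by omega) (by omega) (by omega)]
    unfold G
    simp
  omega

lemma Phi_inj (n r : ℕ) (N N' : Fin (2 * r + 1) → Fin (2 * r + 1) → ℕ)
    (h : Pool.Agent.W102.GI.IsW n r N) (h' : Pool.Agent.W102.GI.IsW n r N')
    (e : Phi r N = Phi r N') : N = N' := by
  have hc := even_c n r N h
  have hc' := even_c n r N' h'
  obtain ⟨h1, h2, h3⟩ := h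
  obtain ⟨h1', h2', h3'⟩ := h'
  have s1 : ∀ x y, MN N x y = MN N y x := fun x y => h1 _ _
  have s1' : ∀ x y, MN N' x y = MN N' y x := fun x y => h1' _ _
  have s2 : ∀ x y, MN N (-x) (-y) = MN N x y := by
    intro x y; unfold MN; rw [ix_rev, ix_rev]; exact h2 _ _
  have s2' : ∀ x y, MN N' (-x) (-y) = MN N' x y := by
    intro x y; unfold MN; rw [ix_rev, ix_rev]; exact h2' _ _
  have eA : ∀ x : ℤ, -(r : ℤ) ≤ x → x ≤ r → A (MN N) x = A (MN N') x := by
    intro x hx1 hx2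
    have := congrFun (congrArg Prod.fst e) (ix r x)
    simp only [Phi] at this
    rw [ix_val r x hx1 hx2] at this
    simpa using this
  have eC : ∀ x y : ℤ, 0 < y → y ≤ r → -y < x → x < y → MN N x y = MN N' x y := by
    intro x y hy1 hy2 hx1 hx2
    have := congrFun (congrArg Prod.snd e)
      ⟨⟨(y - 1).toNat, by omega⟩, ⟨(x + (y - 1)).toNat, by simp only; omega⟩⟩
    simp only [Phi] at this
    have e1 : (((x + (y - 1)).toNat : ℕ) : ℤ) - (((y - 1).toNat : ℕ) : ℤ) = x := by omega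
    have e2 : (((y - 1).toNat : ℕ) : ℤ) + 1 = y := by omega
    rw [e1, e2] at this
    exact this
  have e0 : MN N 0 0 = MN N' 0 0 := by
    have := eA 0 (by omega) (by omega)
    unfold A at this
    rw [if_pos rfl, if_pos rfl] at this
    omega
  have ep : ∀ x : ℤ, 0 < x → x ≤ r → MN N x x = MN N' x x := by
    intro x hx1 hx2
    have := eA x (by omega) (by omega)
    unfold A at this
    rw [if_neg (by omega), if_pos hx1, if_neg (by omega), if_pos hx1] at this
    exact this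
  have en : ∀ x : ℤ, 0 < x → x ≤ r → MN N x (-x) = MN N' x (-x) := by
    intro x hx1 hx2
    have := eA (-x) (by omega) (by omega)
    unfold A at this
    rw [if_neg (by omega), if_neg (by omega), if_neg (by omega), if_neg (by omega), neg_neg] at this
    exact this
  have hlt : ∀ x y : ℤ, -(r : ℤ) ≤ x → x ≤ r → -(r : ℤ) ≤ y → y ≤ r → |x| < |y| →
      MN N x y = MN N' x y := by
    intro x y _ _ hy1 hy2 hxy
    rcases lt_trichotomy y 0 with hy | hy | hy
    · rw [abs_of_neg hy, abs_lt] at hxy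
      rw [← s2 x y, ← s2' x y]
      exact eC _ _ (by omega) (by omega) (by omega) (by omega)
    · rw [hy, abs_zero] at hxy; exact absurd (abs_nonneg x) (not_le.2 hxy)
    · rw [abs_of_pos hy, abs_lt] at hxy
      exact eC _ _ hy hy2 hxy.1 hxy.2
  have all : ∀ x y : ℤ, -(r : ℤ) ≤ x → x ≤ r → -(r : ℤ) ≤ y → y ≤ r →
      MN N x y = MN N' x y := by
    intro x y hx1 hx2 hy1 hy2
    rcases lt_trichotomy |x| |y| with hxy | hxy | hxy
    · exact hlt x y hx1 hx2 hy1 hy2 hxy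
    · rcases lt_trichotomy x 0 with hx | hx | hx
      · rcases abs_eq_abs.1 hxy with hh | hh
        · rw [← hh, ← s2 x x, ← s2' x x]
          exact ep _ (by omega) (by omega)
        · have hy : y = -x := by omega
          rw [hy, ← s2 x (-x), ← s2' x (-x)]
          exact en (-x) (by omega) (by omega)
      · have hy : y = 0 := by rw [hx, abs_zero] at hxy; exact abs_eq_zero.1 hxy.symm
        rw [hx, hy, e0]
      · rcases abs_eq_abs.1 hxy with hh | hh
        · rw [← hh]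
          exact ep _ hx hx2
        · have hy : y = -x := by omega
          rw [hy]
          exact en x hx hx2
    · rw [s1, s1']
      exact hlt y x hy1 hy2 hx1 hx2 hxy
  funext u v
  have := all (((u : ℕ) : ℤ) - (r : ℤ)) (((v : ℕ) : ℤ) - (r : ℤ))
    (by have := u.isLt; omega) (by have := u.isLt; omega) (by have := v.isLt; omega)
    (by have := v.isLt; omega)
  unfold MN at this
  rw [ix_sub, ix_sub] at this
  exact this

lemma ncard_eq (n r : ℕ) : Set.ncard {N | Pool.Agent.W102.GI.IsW n r N}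
    = Set.ncard {p : (Fin (2 * r + 1) → ℕ) × (Ix r → ℕ) | ∑ u, p.1 u + 2 * ∑ q, p.2 q = n} := by
  apply Set.ncard_congr (fun N _ => Phi r N)
  · intro N hN
    exact weight n r N hN
  · intro N N' hN hN' e
    exact Phi_inj n r N N' hN hN' e
  · intro p hp
    exact ⟨Psi r p, Psi_isW n r p hp, Phi_Psi r p⟩

lemma card_Ix (r : ℕ) : Fintype.card (Ix r) = r ^ 2 := by
  rw [Fintype.card_sigma]
  simp only [Fintype.card_fin]
  rw [Fin.sum_univ_eq_sum_range (fun k : ℕ => 2 * k + 1) r]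
  induction r with
  | zero => simp
  | succ r ih => rw [sum_range_succ, ih]; ring

lemma set_eq {ι : Type} [Fintype ι] [DecidableEq ι] (m : ℕ) :
    {f : ι → ℕ | ∑ i, f i = m} = ((Finset.piAntidiag (Finset.univ : Finset ι) m : Finset (ι → ℕ)) : Set (ι → ℕ)) := by
  ext f
  simp

lemma card_pair (n r : ℕ) (h : Pool.Agent.W102.GI.MC) :
    Set.ncard {p : (Fin (2 * r + 1) → ℕ) × (Ix r → ℕ) | ∑ u, p.1 u + 2 * ∑ q, p.2 q = n}
      = Pool.Agent.W102.GI.F n r := by
  classical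
  have c1 : ∀ m, (Finset.piAntidiag (Finset.univ : Finset (Fin (2 * r + 1))) m).card
      = Nat.multichoose (2 * r + 1) m := by
    intro m
    have := h (Fin (2 * r + 1)) m
    rw [set_eq, Set.ncard_coe_finset, Fintype.card_fin] at this
    exact this
  have c2 : ∀ m, (Finset.piAntidiag (Finset.univ : Finset (Ix r)) m).card
      = Nat.multichoose (r ^ 2) m := by
    intro m
    have := h (Ix r) m
    rw [set_eq, Set.ncard_coe_finset, card_Ix] at this
    exact this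
  have hs : {p : (Fin (2 * r + 1) → ℕ) × (Ix r → ℕ) | ∑ u, p.1 u + 2 * ∑ q, p.2 q = n}
      = (((range (n / 2 + 1)).biUnion (fun j =>
        (Finset.piAntidiag (Finset.univ : Finset (Fin (2 * r + 1))) (n - 2 * j)) ×ˢ
        (Finset.piAntidiag (Finset.univ : Finset (Ix r)) j)) : Finset _) : Set _) := by
    ext p
    simp only [Set.mem_ofPred_eq, Finset.coe_biUnion, Set.mem_iUnion, Finset.mem_coe,
      Finset.mem_product, Finset.mem_piAntidiag, Finset.mem_range, Finset.mem_univ, implies_true,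
      and_true, exists_prop]
    constructor
    · intro hp
      have h1 : ∑ u, p.1 u = n - 2 * ∑ q, p.2 q := by omega
      exact ⟨∑ q, p.2 q, by omega, h1, rfl⟩
    · rintro ⟨j, hj, h1, h2⟩
      have h1' : ∑ u, p.1 u = n - 2 * j := h1
      have h2' : ∑ q, p.2 q = j := h2
      rw [h1', h2']
      omega
  rw [hs, Set.ncard_coe_finset, Finset.card_biUnion]
  · unfold Pool.Agent.W102.GI.F
    apply sum_congr rfl
    intro j _
    rw [Finset.card_product, c1, c2]
  · intro i _ j _ hij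
    show Disjoint _ _
    rw [Finset.disjoint_left]
    intro p hp hp'
    rw [Finset.mem_product, Finset.mem_piAntidiag, Finset.mem_piAntidiag] at hp hp'
    exact hij (hp.2.1.symm.trans hp'.2.1)

theorem WC (h : Pool.Agent.W102.GI.MC) : Pool.Agent.W102.GI.WC := by
  intro n r
  rw [ncard_eq, card_pair n r h]

end Pool.Agent.W283.GI
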